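import Mathlib
import Pool.Agent.U147.ASC.Fin

set_option autoImplicit false

/-!
# MP_f5e7e2_co: Pfaffians built from Al-Salam–Carlitz moment sequences

Both conjectured evaluations (Q1 and Q2) hold for every `n ≥ 1`.

Proof. Let `L` be the functional with moments `g_r` and `D` the operator `x^i ↦ (1 - q^i) x^(i-1)`.
The two matrices are the Gram matrices of the monomials for the skew forms `L (f Dg - g Df)` and
`L (x (f Dg - g Df))`. For the monic Al-Salam–Carlitz polynomials `U_n` one has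
`D U_n = (1 - q^n) U_(n-1)` and `L (U_m U_n) = δ_mn h_n`; hence in the basis `U_0, U_1, ...` the first
form is tridiagonal and the second one has two diagonals above the main one. The Pfaffian of the first
is a product and the Pfaffians of the second satisfy a recurrence of order two, which is the recurrence
of the Rogers–Szegő polynomials for the base `q^(-2)`.
-/

open Finset MvPolynomial

namespace Pool.Agent.Results.MP_f5e7e2_co.BothIdentities

/-- The ring `ℚ[a, q]`, which contains `ℤ[a, q]`. -/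
abbrev Pol : Type := MvPolynomial (Fin 2) ℚ

/-- the indeterminate `a` -/
noncomputable def a : Pol := X 0

/-- the indeterminate `q` -/
noncomputable def q : Pol := X 1

/-- `(x; x)_m = (1 - x) (1 - x ^ 2) ⋯ (1 - x ^ m)` -/
noncomputable def poch (x : Pol) (m : ℕ) : Pol := ∏ i ∈ range m, (1 - x ^ (i + 1))

/-- The Gaussian binomial `[m, k]_x`, defined by the `q`-Pascal rule; it is the quotient
`(x; x)_m / ((x; x)_k (x; x)_(m-k))` for `k ≤ m`, see the first part of `result`. -/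
noncomputable def gauss (x : Pol) : ℕ → ℕ → Pol
  | _, 0 => 1
  | 0, _ + 1 => 0
  | m + 1, k + 1 => gauss x m k + x ^ (k + 1) * gauss x m (k + 1)

/-- `g_r = ∑_{j ≤ r} [r, j]_q a ^ j` -/
noncomputable def g (r : ℕ) : Pol := ∑ j ∈ range (r + 1), gauss q r j * a ^ j

/-- The Pfaffian of a `2 n × 2 n` matrix,
`1 / (2 ^ n n!) ∑_σ sgn σ ∏_{k = 1}^n A_{σ(2k-1), σ(2k)}`. (In Lean the rows and columns are numbered
from `0` to `2 n - 1`.) -/
noncomputable def Pf {n : ℕ} (A : Matrix (Fin (2 * n)) (Fin (2 * n)) Pol) : Pol :=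
  C (1 / (2 ^ n * n.factorial : ℚ)) * ∑ σ : Equiv.Perm (Fin (2 * n)),
    ((Equiv.Perm.sign σ : ℤ) : Pol) * ∏ k : Fin n,
      A (σ ⟨2 * k, by omega⟩) (σ ⟨2 * k + 1, by omega⟩)

/-- The first matrix, with entries `(x_i - x_j) g_{i+j-3}` for `1 ≤ i, j ≤ 2 n`; with `i`, `j`
numbered from `0` this is `(q^i - q^j) g_{i+j-1}`, and it is `0` for `i = j = 0`. -/
noncomputable def M₁ (n : ℕ) : Matrix (Fin (2 * n)) (Fin (2 * n)) Pol :=
  Matrix.of fun i j => (q ^ (i : ℕ) - q ^ (j : ℕ)) * (if (i : ℕ) + j = 0 then 0 else g (i + j - 1))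

/-- The second matrix, with entries `(x_i - x_j) g_{i+j-2}` for `1 ≤ i, j ≤ 2 n`; with `i`, `j`
numbered from `0` this is `(q^i - q^j) g_{i+j}`. -/
noncomputable def M₂ (n : ℕ) : Matrix (Fin (2 * n)) (Fin (2 * n)) Pol :=
  Matrix.of fun i j => (q ^ (i : ℕ) - q ^ (j : ℕ)) * g (i + j)

/-- `m = ⌊n / 2⌋` -/
def m (n : ℕ) : ℤ := ((n / 2 : ℕ) : ℤ)

/-- `m' = ⌊(n - 1) / 2⌋` (for `n ≥ 1`) -/
def m' (n : ℕ) : ℤ := (((n - 1) / 2 : ℕ) : ℤ)

/-- `e(n) = m (16 m ^ 2 - 1) / 3 - (-1) ^ n 4 m ^ 2`; the division is exact. -/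
def e (n : ℕ) : ℤ := m n * (16 * m n ^ 2 - 1) / 3 - (-1) ^ n * (4 * m n ^ 2)

/-- `P_n = ∏_{k=1}^n (q; q)_{2k-1}` -/
noncomputable def P (n : ℕ) : Pol := ∏ k ∈ range n, poch q (2 * k + 1)

/-- `c_k = ⌊(n - 2 k) ^ 2 / 2⌋` -/
def c (n k : ℕ) : ℕ := (((n : ℤ) - 2 * k) ^ 2 / 2).toNat

theorem gauss_eq (x : Pol) : ∀ m k, gauss x m k = Pool.Agent.U147.ASC.qb x m k
  | m, 0 => by rw [Pool.Agent.U147.ASC.qb_zero]; cases m <;> rfl
  | 0, k + 1 => rfl
  | m + 1, k + 1 => by
    rw [Pool.Agent.U147.ASC.qb_succ, ← gauss_eq x m k, ← gauss_eq x m (k + 1)]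
    rfl

theorem g_eq (r : ℕ) : g r = Pool.Agent.U147.ASC.G (X 0) (X 1) r :=
  sum_congr rfl fun j _ => by rw [gauss_eq]; rfl

theorem Pf_eq {n : ℕ} (A : Matrix (Fin (2 * n)) (Fin (2 * n)) Pol) (B : Pol)
    (h : Pool.Agent.U147.ASC.pfS A = (n.factorial * 2 ^ n : ℕ) * B) : Pf A = B := by
  have h1 : Pf A = C (1 / (2 ^ n * n.factorial : ℚ)) * Pool.Agent.U147.ASC.pfS A := rfl
  rw [h1, h, ← mul_assoc]
  have h2 : ((n.factorial * 2 ^ n : ℕ) : Pol) = C ((n.factorial * 2 ^ n : ℕ) : ℚ) := by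
    rw [map_natCast]
  have h3 : (1 / (2 ^ n * n.factorial : ℚ)) * ((n.factorial * 2 ^ n : ℕ) : ℚ) = 1 := by
    push_cast
    have : (n.factorial : ℚ) ≠ 0 := by exact_mod_cast n.factorial_ne_zero
    field_simp
  rw [h2, ← C_mul, h3, C_1, one_mul]

/-- **Both identities hold.** -/
theorem result :
    -- `gauss` is the Gaussian binomial
    (∀ (x : Pol) (k l : ℕ), gauss x (k + l) k * (poch x k * poch x l) = poch x (k + l)) ∧
    ∀ n : ℕ, 1 ≤ n →
      -- the division in `e n` is exact, and the exponents are non-negative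
      ((3 : ℤ) ∣ m n * (16 * m n ^ 2 - 1) ∧ 0 ≤ e n ∧ 0 ≤ e n - 2 * m n * m' n) ∧
      -- Q1
      Pf (M₁ n) = a ^ (n * (n - 1)) * q ^ (e n - 2 * m n * m' n).toNat * P n ∧
      -- Q2
      Pf (M₂ n) = a ^ (n * (n - 1)) * q ^ (e n).toNat * P n *
        ∑ k ∈ range (n + 1), q ^ c n k * gauss (q ^ 2) n k * a ^ k := by
  refine ⟨fun x k l => ?_, fun n hn => ?_⟩
  · rw [gauss_eq]
    exact Pool.Agent.U147.ASC.qb_mul_poch x k l
  · have he : e n = ((∑ k ∈ range n, k * (2 * k - 1) : ℕ) : ℤ) + 2 * m n * m' n :=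
      Pool.Agent.U147.ASC.ex_eq hn
    have hm : 0 ≤ 2 * m n * m' n := by unfold m m'; positivity
    have h1 : (e n - 2 * m n * m' n).toNat = ∑ k ∈ range n, k * (2 * k - 1) := by
      rw [he, add_sub_cancel_right, Int.toNat_natCast]
    have h2 : (e n).toNat = ∑ k ∈ range n, k * (2 * k - 1) + 2 * (n / 2) * ((n - 1) / 2) := by
      rw [he]
      unfold m m'
      have : (((∑ k ∈ range n, k * (2 * k - 1) : ℕ) : ℤ) + 2 * ((n / 2 : ℕ) : ℤ) *
        (((n - 1) / 2 : ℕ) : ℤ)) = ((∑ k ∈ range n, k * (2 * k - 1) +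
          2 * (n / 2) * ((n - 1) / 2) : ℕ) : ℤ) := by push_cast; ring
      rw [this, Int.toNat_natCast]
    have hpos : 0 ≤ e n - 2 * m n * m' n := by
      rw [he, add_sub_cancel_right]
      exact Int.natCast_nonneg _
    refine ⟨⟨Pool.Agent.U147.ASC.ex_dvd hn, by linarith, hpos⟩, ?_, ?_⟩
    · rw [h1]
      apply Pf_eq
      rw [Pool.Agent.U147.ASC.poly_one n (M₁ n), Pool.Agent.U147.ASC.prod_closed]
      · rfl
      · intro i j
        unfold M₁
        rw [Matrix.of_apply]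
        by_cases h : (i : ℕ) + j = 0
        · have hi : (i : ℕ) = 0 := by omega
          have hj : (j : ℕ) = 0 := by omega
          rw [if_pos h, hi, hj]
          simp
        · rw [if_neg h, g_eq]
          rfl
    · rw [h2]
      apply Pf_eq
      rw [Pool.Agent.U147.ASC.poly_two n (M₂ n), Pool.Agent.U147.ASC.prod_closed,
        Pool.Agent.U147.ASC.fs_closed _ _ hn]
      · have h3 : ∑ k ∈ range (n + 1), q ^ c n k * gauss (q ^ 2) n k * a ^ k =
            ∑ k ∈ range (n + 1), (X 1 : Pol) ^ ((((n : ℤ) - 2 * k) ^ 2) / 2).toNat *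
              Pool.Agent.U147.ASC.qb ((X 1 : Pol) ^ 2) n k * (X 0 : Pol) ^ k :=
          sum_congr rfl fun k _ => by rw [gauss_eq]; rfl
        rw [h3]
        have h4 : P n = ∏ k ∈ range n, Pool.Agent.U147.ASC.poch (X 1 : Pol) (2 * k + 1) := rfl
        rw [h4]
        unfold a q
        rw [pow_add]
        ring
      · intro i j
        unfold M₂
        rw [Matrix.of_apply, g_eq]
        rfl

end Pool.Agent.Results.MP_f5e7e2_co.BothIdentities
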